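import Pool.Agent.H40.G2.AH

/-!
# An inequality for pairs of isometric linear maps into a Hilbert space
-/

set_option autoImplicit false

namespace Pool.Agent.H40.G2

open MeasureTheory Set Filter Topology

/-- The inequality for two linear maps with equal norms. -/
theorem ah2 {V H : Type*} [AddCommGroup V] [Module ℂ V]
    [NormedAddCommGroup H] [InnerProductSpace ℂ H] [CompleteSpace H]
    (φ ψ : V →ₗ[ℂ] H) (h : ∀ v, ‖φ v‖ = ‖ψ v‖) (b : H) :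
    ∀ᵐ θ : ℝ, ∃ C : ℝ, 0 ≤ C ∧ ∀ N : ℕ, ∃ T : ℝ, 1 ≤ T ∧ (N : ℝ) ≤ T ∧ ∀ v : V,
      ‖inner ℂ b (φ v)‖ ^ 2 ≤
        C * (T ^ 2 * ‖φ v - Complex.exp (Complex.I * θ) • ψ v‖ ^ 2 +
          (T ^ 2)⁻¹ * ‖φ v‖ ^ 2) := by
  let L : V →ₗ[ℂ] WithLp 2 (H × H) :=
    (WithLp.linearEquiv 2 ℂ (H × H)).symm.toLinearMap ∘ₗ (φ.prod ψ)
  let K : Submodule ℂ (WithLp 2 (H × H)) := (LinearMap.range L).topologicalClosure
  have : CompleteSpace K := (Submodule.isClosed_topologicalClosure _).completeSpace_coe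
  have hLf : ∀ v, (L v).fst = φ v := fun v => rfl
  have hLs : ∀ v, (L v).snd = ψ v := fun v => rfl
  have hK : ∀ k : WithLp 2 (H × H), k ∈ K → ‖k.fst‖ = ‖k.snd‖ := by
    intro k hk
    have hcl : IsClosed {k : WithLp 2 (H × H) | ‖k.fst‖ = ‖k.snd‖} := by
      refine isClosed_eq ?_ ?_
      · exact (WithLp.fstL 2 ℂ H H).continuous.norm
      · exact (WithLp.sndL 2 ℂ H H).continuous.norm
    have hsub : ((LinearMap.range L : Submodule ℂ (WithLp 2 (H × H))) :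
        Set (WithLp 2 (H × H))) ⊆ {k : WithLp 2 (H × H) | ‖k.fst‖ = ‖k.snd‖} := by
      rintro _ ⟨v, rfl⟩
      show ‖(L v).fst‖ = ‖(L v).snd‖
      rw [hLf, hLs, h]
    have := closure_minimal hsub hcl
    exact this hk
  let A : K →L[ℂ] H := ((√2 : ℝ) : ℂ) • ((WithLp.fstL 2 ℂ H H) ∘L K.subtypeL)
  let B : K →L[ℂ] H := ((√2 : ℝ) : ℂ) • ((WithLp.sndL 2 ℂ H H) ∘L K.subtypeL)
  have hAe : ∀ k : K, A k = ((√2 : ℝ) : ℂ) • (k : WithLp 2 (H × H)).fst := fun k => rfl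
  have hBe : ∀ k : K, B k = ((√2 : ℝ) : ℂ) • (k : WithLp 2 (H × H)).snd := fun k => rfl
  have hn : ∀ k : K, ‖k‖ ^ 2 = 2 * ‖(k : WithLp 2 (H × H)).fst‖ ^ 2 := by
    intro k
    have h1 : ‖k‖ = ‖(k : WithLp 2 (H × H))‖ := rfl
    rw [h1, WithLp.prod_norm_sq_eq_of_L2, ← hK k.1 k.2]
    ring
  have hs2 : √2 ^ 2 = (2 : ℝ) := Real.sq_sqrt (by norm_num)
  have hsn : ‖((√2 : ℝ) : ℂ)‖ = √2 := by
    rw [Complex.norm_real, Real.norm_of_nonneg (Real.sqrt_nonneg _)]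
  have hA : ∀ k, ‖A k‖ = ‖k‖ := by
    intro k
    rw [← sq_eq_sq₀ (norm_nonneg _) (norm_nonneg _), hn, hAe, norm_smul, hsn, mul_pow, hs2]
  have hB : ∀ k, ‖B k‖ = ‖k‖ := by
    intro k
    rw [← sq_eq_sq₀ (norm_nonneg _) (norm_nonneg _), hn, hBe, norm_smul, hsn, mul_pow, hs2,
      hK k.1 k.2]
  filter_upwards [ah A B hA hB b] with θ hθ
  obtain ⟨C, hC0, hC⟩ := hθ
  refine ⟨C, hC0, fun N => ?_⟩
  obtain ⟨T, hT1, hTN, hT⟩ := hC N
  refine ⟨T, hT1, hTN, fun v => ?_⟩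
  have hmem : L v ∈ K := Submodule.le_topologicalClosure _ ⟨v, rfl⟩
  have h1 := hT ⟨L v, hmem⟩
  rw [hAe, hBe, hn] at h1
  simp only [hLf, hLs] at h1
  rw [inner_smul_right, norm_mul, hsn, mul_pow, hs2, smul_comm, ← smul_sub, norm_smul, hsn,
    mul_pow, hs2] at h1
  linarith [h1]

end Pool.Agent.H40.G2
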