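import Pool.Agent.H44.GT.Defs
import Pool.Agent.H40.G2.AH2

/-!
# Step A: linear functionals of the gradient of a section
-/

set_option autoImplicit false
set_option linter.unusedVariables false

namespace Pool.Agent.H40.G2

open MeasureTheory Set Filter Topology Pool.Agent.H44.DU

/-- change of variable -/
theorem ae_arctan (p : ℝ → Prop) (h : ∀ᵐ θ : ℝ, p θ) :
    ∀ᵐ t : ℝ, p (-(2 * Real.arctan t)) := by
  rw [ae_iff] at h ⊢
  set N : Set ℝ := {θ | ¬ p θ} ∩ Ioo (-Real.pi) Real.pi with hN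
  have hN0 : volume N = 0 := measure_mono_null inter_subset_left h
  have hpi := Real.pi_pos
  have hd : DifferentiableOn ℝ (fun θ => Real.tan (-θ / 2)) N := by
    intro θ hθ
    have h1 : Real.cos (-θ / 2) ≠ 0 := by
      apply ne_of_gt
      apply Real.cos_pos_of_mem_Ioo
      constructor
      · linarith [hθ.2.2]
      · linarith [hθ.2.1]
    have h2 : DifferentiableAt ℝ Real.tan (-θ / 2) := Real.differentiableAt_tan.2 h1
    have h3 : DifferentiableAt ℝ (fun θ : ℝ => -θ / 2) θ := by fun_prop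
    exact (DifferentiableAt.comp θ h2 h3).differentiableWithinAt
  have h0 := addHaar_image_eq_zero_of_differentiableOn_of_addHaar_eq_zero volume hd hN0
  refine measure_mono_null ?_ h0
  intro t ht
  have h1 := Real.neg_pi_div_two_lt_arctan t
  have h2 := Real.arctan_lt_pi_div_two t
  refine ⟨-(2 * Real.arctan t), ⟨ht, ?_, ?_⟩, ?_⟩
  · linarith
  · linarith
  · have : -(-(2 * Real.arctan t)) / 2 = Real.arctan t := by ring
    simp only [this, Real.tan_arctan]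

/-- the unit number of the slope `t` -/
theorem exp_arctan (t : ℝ) : Complex.exp (Complex.I * ((-(2 * Real.arctan t) : ℝ) : ℂ)) =
    -((t : ℂ) + Complex.I) / ((t : ℂ) - Complex.I) := by
  have h1 : Complex.exp (Complex.I * ((-(2 * Real.arctan t) : ℝ) : ℂ)) =
      Complex.exp (((-Real.arctan t : ℝ) : ℂ) * Complex.I) ^ 2 := by
    rw [← Complex.exp_nat_mul]
    congr 1
    push_cast
    ring
  rw [h1, Complex.exp_ofReal_mul_I, Real.cos_neg, Real.sin_neg, Real.cos_arctan,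
    Real.sin_arctan]
  have hs : 0 < 1 + t ^ 2 := by positivity
  have hq : √(1 + t ^ 2) ^ 2 = 1 + t ^ 2 := Real.sq_sqrt hs.le
  have hq0 : √(1 + t ^ 2) ≠ 0 := by positivity
  have hqc : (√(1 + t ^ 2) : ℂ) ^ 2 = 1 + (t : ℂ) ^ 2 := by
    exact_mod_cast hq
  have hqc0 : (√(1 + t ^ 2) : ℂ) ≠ 0 := by exact_mod_cast hq0
  have hti : (t : ℂ) - Complex.I ≠ 0 := by
    intro h
    have := congrArg Complex.im h
    simp at this
  have hti2 : (t : ℂ) + Complex.I ≠ 0 := by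
    intro h
    have := congrArg Complex.im h
    simp at this
  push_cast
  have h2 : (1 / (√(1 + t ^ 2) : ℂ) + -(t / (√(1 + t ^ 2) : ℂ)) * Complex.I) ^ 2 =
      (1 - t * Complex.I) ^ 2 / (1 + (t : ℂ) ^ 2) := by
    rw [← hqc]
    field_simp
    ring
  rw [h2]
  have h3 : (1 : ℂ) + (t : ℂ) ^ 2 = ((t : ℂ) + Complex.I) * ((t : ℂ) - Complex.I) := by
    ring_nf
    rw [Complex.I_sq]
    ring
  rw [h3, div_eq_div_iff (mul_ne_zero hti2 hti) hti]
  linear_combination ((1 + (t : ℂ) ^ 2) * ((t : ℂ) - Complex.I)) * Complex.I_sq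

/-- arithmetic of the last step -/
theorem arith (t C T X Y F E1 Et Z e B : ℝ) (hT1 : 1 ≤ T) (hC0 : 0 ≤ C) (hX0 : 0 ≤ X)
    (hY0 : 0 ≤ Y) (hE1 : 0 ≤ E1) (he : 0 ≤ e) (hB : 0 ≤ B) (hZ0 : 0 ≤ Z)
    (h1 : Y ^ 2 ≤ C * (T ^ 2 * X ^ 2 + (T ^ 2)⁻¹ * F ^ 2))
    (hDn : Et = (1 + t ^ 2) * X ^ 2) (hφn : F ^ 2 ≤ (1 + t ^ 2) * (E1 + Et))
    (hsum : Z ≤ 2 * e * Y + e * (B * X)) :
    Z ^ 2 ≤ (16 * e ^ 2 * C * (1 + t ^ 2) + 2 * e ^ 2 * B ^ 2) *
      (T ^ 2 * Et + (T ^ 2)⁻¹ * E1) := by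
  have hE0 : 0 ≤ Et := by
    rw [hDn]
    positivity
  have hT2 : 1 ≤ T ^ 2 := by nlinarith
  have hT3 : (T ^ 2)⁻¹ ≤ T ^ 2 := (inv_le_one_of_one_le₀ hT2).trans hT2
  have hT4 : 0 ≤ (T ^ 2)⁻¹ := by positivity
  set W := T ^ 2 * Et + (T ^ 2)⁻¹ * E1 with hW
  have hXE : X ^ 2 ≤ Et := by
    rw [hDn]
    nlinarith [mul_nonneg (sq_nonneg t) (sq_nonneg X)]
  have hXq : X ^ 2 ≤ W := by
    have e2 : Et ≤ T ^ 2 * Et := by nlinarith
    have e3 : 0 ≤ (T ^ 2)⁻¹ * E1 := by positivity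
    linarith
  have hYq : Y ^ 2 ≤ C * (2 * (1 + t ^ 2) * W) := by
    refine h1.trans ?_
    gcongr
    have e1 : T ^ 2 * X ^ 2 ≤ T ^ 2 * Et := by gcongr
    have e2 : (T ^ 2)⁻¹ * F ^ 2 ≤ (1 + t ^ 2) * ((T ^ 2)⁻¹ * E1 + T ^ 2 * Et) := by
      calc (T ^ 2)⁻¹ * F ^ 2 ≤ (T ^ 2)⁻¹ * ((1 + t ^ 2) * (E1 + Et)) := by gcongr
        _ = (1 + t ^ 2) * ((T ^ 2)⁻¹ * E1 + (T ^ 2)⁻¹ * Et) := by ring
        _ ≤ _ := by gcongr
    have e3 : 0 ≤ t ^ 2 * W := by positivity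
    have e4 : 0 ≤ (T ^ 2)⁻¹ * E1 := by positivity
    have e5 : 0 ≤ T ^ 2 * Et := by positivity
    nlinarith
  calc Z ^ 2 ≤ (2 * e * Y + e * (B * X)) ^ 2 := by gcongr
    _ ≤ 2 * (2 * e * Y) ^ 2 + 2 * (e * (B * X)) ^ 2 := by
        nlinarith [sq_nonneg (2 * e * Y - e * (B * X))]
    _ = 8 * e ^ 2 * Y ^ 2 + 2 * e ^ 2 * B ^ 2 * X ^ 2 := by ring
    _ ≤ 8 * e ^ 2 * (C * (2 * (1 + t ^ 2) * W)) + 2 * e ^ 2 * B ^ 2 * W := by gcongr
    _ = _ := by ring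

/-- arithmetic of the norm -/
theorem arith2 (t p q F : ℝ) (hF : 0 ≤ F) (h : F ≤ (1 / 2) * (√(1 + t ^ 2) * p + q)) :
    F ^ 2 ≤ (1 + t ^ 2) * (p ^ 2 + q ^ 2) := by
  have hs : 0 ≤ 1 + t ^ 2 := by positivity
  have hq2 : √(1 + t ^ 2) ^ 2 = 1 + t ^ 2 := Real.sq_sqrt hs
  calc F ^ 2 ≤ ((1 / 2) * (√(1 + t ^ 2) * p + q)) ^ 2 := by gcongr
    _ ≤ (1 / 2) * ((√(1 + t ^ 2) * p) ^ 2 + q ^ 2) := by
        nlinarith [sq_nonneg (√(1 + t ^ 2) * p - q)]
    _ = (1 / 2) * ((1 + t ^ 2) * p ^ 2 + q ^ 2) := by rw [mul_pow, hq2]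
    _ ≤ (1 + t ^ 2) * (p ^ 2 + q ^ 2) := by
        nlinarith [mul_nonneg (sq_nonneg t) (sq_nonneg q), mul_nonneg (sq_nonneg t) (sq_nonneg p),
          sq_nonneg p, sq_nonneg q]

variable {n : ℕ} (S : Surf n)

/-- The facts about sections which are used in step A. -/
structure Facts (ζ : Side n → ℂ) : Prop where
  zero : S.Sec ζ (fun _ _ => 0)
  add : ∀ G G', S.Sec ζ G → S.Sec ζ G' → S.Sec ζ (fun i z => G i z + G' i z)
  smul : ∀ (c : ℂ) (G), S.Sec ζ G → S.Sec ζ (fun i z => c * G i z)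
  mem : ∀ G, S.Sec ζ G → ∀ (i : Fin n) (e : ℂ),
    MemLp (fun z => fderiv ℝ (G i) z e) 2 (volume.restrict (S.tri i))
  fadd : ∀ G G', S.Sec ζ G → S.Sec ζ G' → ∀ (i : Fin n) (e : ℂ),
    ∀ᵐ z ∂(volume.restrict (S.tri i)),
      fderiv ℝ (fun z => G i z + G' i z) z e = fderiv ℝ (G i) z e + fderiv ℝ (G' i) z e
  fsmul : ∀ (c : ℂ) (G), S.Sec ζ G → ∀ (i : Fin n) (e : ℂ),
    ∀ᵐ z ∂(volume.restrict (S.tri i)),
      fderiv ℝ (fun z => c * G i z) z e = c * fderiv ℝ (G i) z e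
  green : ∀ G, S.Sec ζ G → ∑ i, ∫ z in S.tri i,
    ((starRingEnd ℂ) (fderiv ℝ (G i) z 1) * fderiv ℝ (G i) z Complex.I).im = 0

/-- The space of sections. -/
def Vs {ζ : Side n → ℂ} (hf : Facts S ζ) : Submodule ℂ (Fin n → ℂ → ℂ) where
  carrier := {G | S.Sec ζ G}
  zero_mem' := hf.zero
  add_mem' := fun h h' => hf.add _ _ h h'
  smul_mem' := fun c _ h => hf.smul c _ h

/-- The Hilbert space. -/
abbrev Hs : Type := PiLp 2 (fun i : Fin n => Lp ℂ 2 (volume.restrict (S.tri i)))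

/-- The derivative in the direction `e`. -/
noncomputable def Dl {ζ : Side n → ℂ} (hf : Facts S ζ) (e : ℂ) : Vs S hf →ₗ[ℂ] Hs S where
  toFun G := WithLp.toLp 2 (fun i => (hf.mem G.1 G.2 i e).toLp _)
  map_add' := by
    intro G G'
    ext i : 1
    show (hf.mem (G + G').1 (G + G').2 i e).toLp _ =
      (hf.mem G.1 G.2 i e).toLp _ + (hf.mem G'.1 G'.2 i e).toLp _
    rw [← MemLp.toLp_add]
    rw [MemLp.toLp_eq_toLp_iff]
    exact hf.fadd G.1 G'.1 G.2 G'.2 i e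
  map_smul' := by
    intro c G
    ext i : 1
    show (hf.mem (c • G).1 (c • G).2 i e).toLp _ = c • (hf.mem G.1 G.2 i e).toLp _
    rw [← MemLp.toLp_const_smul]
    rw [MemLp.toLp_eq_toLp_iff]
    exact hf.fsmul c G.1 G.2 i e

theorem Dl_inner {ζ : Side n → ℂ} (hf : Facts S ζ) (e e' : ℂ) (G : Vs S hf) :
    inner ℂ (Dl S hf e G) (Dl S hf e' G) =
      ∑ i, ∫ z in S.tri i, (starRingEnd ℂ) (fderiv ℝ (G.1 i) z e) * fderiv ℝ (G.1 i) z e' := by
  rw [PiLp.inner_apply]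
  refine Finset.sum_congr rfl fun i _ => ?_
  rw [L2.inner_def]
  refine integral_congr_ae ?_
  have h1 : ⇑((hf.mem G.1 G.2 i e).toLp _) =ᵐ[volume.restrict (S.tri i)] _ :=
    MemLp.coeFn_toLp _
  have h2 : ⇑((hf.mem G.1 G.2 i e').toLp _) =ᵐ[volume.restrict (S.tri i)] _ :=
    MemLp.coeFn_toLp _
  filter_upwards [h1, h2] with z hz1 hz2
  show inner ℂ (((hf.mem G.1 G.2 i e).toLp _ : Lp ℂ 2 (volume.restrict (S.tri i))) z)
    (((hf.mem G.1 G.2 i e').toLp _ : Lp ℂ 2 (volume.restrict (S.tri i))) z) = _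
  rw [hz1, hz2, RCLike.inner_apply, mul_comm]

theorem Dl_norm {ζ : Side n → ℂ} (hf : Facts S ζ) (e : ℂ) (G : Vs S hf) :
    ‖Dl S hf e G‖ ^ 2 = S.en e G.1 := by
  have h1 : ((‖Dl S hf e G‖ ^ 2 : ℝ) : ℂ) = ((S.en e G.1 : ℝ) : ℂ) := by
    have h2 : ((‖Dl S hf e G‖ ^ 2 : ℝ) : ℂ) = inner ℂ (Dl S hf e G) (Dl S hf e G) := by
      rw [inner_self_eq_norm_sq_to_K]
      push_cast
      rfl
    rw [h2, Dl_inner]
    unfold Surf.en
    push_cast
    refine Finset.sum_congr rfl fun i _ => ?_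
    rw [← integral_complex_ofReal]
    refine integral_congr_ae (ae_of_all _ fun z => ?_)
    simp only
    rw [← Complex.normSq_eq_conj_mul_self, Complex.normSq_eq_norm_sq]
  exact_mod_cast h1

theorem Dl_lin {ζ : Side n → ℂ} (hf : Facts S ζ) (e : ℂ) (G : Vs S hf) :
    Dl S hf e G = (e.re : ℂ) • Dl S hf 1 G + (e.im : ℂ) • Dl S hf Complex.I G := by
  ext i : 1
  show (hf.mem G.1 G.2 i e).toLp _ = (e.re : ℂ) • (hf.mem G.1 G.2 i 1).toLp _ +
    (e.im : ℂ) • (hf.mem G.1 G.2 i Complex.I).toLp _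
  rw [← MemLp.toLp_const_smul, ← MemLp.toLp_const_smul, ← MemLp.toLp_add,
    MemLp.toLp_eq_toLp_iff]
  refine ae_of_all _ fun z => ?_
  simp only [Pi.add_apply, Pi.smul_apply]
  have h1 : e = (e.re : ℝ) • (1 : ℂ) + (e.im : ℝ) • Complex.I := by
    rw [Complex.real_smul, Complex.real_smul, mul_one]
    exact (Complex.re_add_im e).symm
  conv_lhs => rw [h1]
  rw [map_add, map_smul, map_smul, Complex.real_smul, Complex.real_smul]
  rfl

theorem Dl_green {ζ : Side n → ℂ} (hf : Facts S ζ) (G : Vs S hf) :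
    (inner ℂ (Dl S hf 1 G) (Dl S hf Complex.I G)).im = 0 := by
  rw [Dl_inner, Complex.im_sum]
  rw [← hf.green G.1 G.2]
  refine Finset.sum_congr rfl fun i _ => ?_
  have hi : Integrable (fun z => (starRingEnd ℂ) (fderiv ℝ (G.1 i) z 1) *
      fderiv ℝ (G.1 i) z Complex.I) (volume.restrict (S.tri i)) := by
    have h1 := hf.mem G.1 G.2 i 1
    have h2 := hf.mem G.1 G.2 i Complex.I
    have h3 : MemLp (fun z => (starRingEnd ℂ) (fderiv ℝ (G.1 i) z 1)) 2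
        (volume.restrict (S.tri i)) := by
      have := h1.star
      exact this
    exact h3.integrable_mul h2
  have := integral_im hi
  simp only [RCLike.im_to_complex] at this
  exact this.symm

/-- Step A. -/
theorem a0 {ζ : Side n → ℂ} (hf : Facts S ζ) (b : Fin n → ℂ → ℂ) (hbm : ∀ i, Measurable (b i))
    (Cb : ℝ) (hb : ∀ i z, ‖b i z‖ ≤ Cb) (e : ℂ) :
    ∀ᵐ t : ℝ, ∃ C : ℝ, 0 ≤ C ∧ ∀ N : ℕ, ∃ T : ℝ, 1 ≤ T ∧ (N : ℝ) ≤ T ∧ ∀ G, S.Sec ζ G →
      ‖∑ i, ∫ z in S.tri i, b i z * fderiv ℝ (G i) z e‖ ^ 2 ≤ C * S.qe t T G := by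
  have hfin : ∀ i, IsFiniteMeasure (volume.restrict (S.tri i)) := by
    intro i
    have hc : IsCompact (S.tri i) := Set.Finite.isCompact_convexHull ℝ (Set.finite_range _)
    exact ⟨by rw [Measure.restrict_apply_univ]; exact hc.measure_lt_top⟩
  have hbmem : ∀ i, MemLp (fun z => (starRingEnd ℂ) (b i z)) 2 (volume.restrict (S.tri i)) := by
    intro i
    have := hfin i
    refine MemLp.of_bound (C := Cb) ?_ (ae_of_all _ fun z => ?_)
    · exact (Complex.continuous_conj.measurable.comp (hbm i)).aestronglyMeasurable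
    · rw [Complex.norm_conj]
      exact hb i z
  set bH : Hs S := WithLp.toLp 2 (fun i => (hbmem i).toLp _) with hbH
  have hbi : ∀ G : Vs S hf, inner ℂ bH (Dl S hf e G) =
      ∑ i, ∫ z in S.tri i, b i z * fderiv ℝ (G.1 i) z e := by
    intro G
    rw [PiLp.inner_apply]
    refine Finset.sum_congr rfl fun i _ => ?_
    rw [L2.inner_def]
    refine integral_congr_ae ?_
    have h1 : ⇑((hbmem i).toLp _) =ᵐ[volume.restrict (S.tri i)] _ := MemLp.coeFn_toLp _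
    have h2 : ⇑((hf.mem G.1 G.2 i e).toLp _) =ᵐ[volume.restrict (S.tri i)] _ :=
      MemLp.coeFn_toLp _
    filter_upwards [h1, h2] with z hz1 hz2
    show inner ℂ (((hbmem i).toLp _ : Lp ℂ 2 (volume.restrict (S.tri i))) z)
      (((hf.mem G.1 G.2 i e).toLp _ : Lp ℂ 2 (volume.restrict (S.tri i))) z) = _
    rw [hz1, hz2, RCLike.inner_apply, Complex.conj_conj, mul_comm]
  let φ : Vs S hf →ₗ[ℂ] Hs S := (1 / 2 : ℂ) • (Dl S hf 1 + Complex.I • Dl S hf Complex.I)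
  let ψ : Vs S hf →ₗ[ℂ] Hs S := (1 / 2 : ℂ) • (Dl S hf 1 - Complex.I • Dl S hf Complex.I)
  have hφ : ∀ G, φ G = (1 / 2 : ℂ) • (Dl S hf 1 G + Complex.I • Dl S hf Complex.I G) :=
    fun G => rfl
  have hψ : ∀ G, ψ G = (1 / 2 : ℂ) • (Dl S hf 1 G - Complex.I • Dl S hf Complex.I G) :=
    fun G => rfl
  have hnorm : ∀ G, ‖φ G‖ = ‖ψ G‖ := by
    intro G
    rw [hφ, hψ, norm_smul, norm_smul]
    congr 1
    rw [← sq_eq_sq₀ (norm_nonneg _) (norm_nonneg _), norm_add_sq (𝕜 := ℂ),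
      norm_sub_sq (𝕜 := ℂ)]
    have h1 : RCLike.re (inner ℂ (Dl S hf 1 G) (Complex.I • Dl S hf Complex.I G)) = 0 := by
      rw [inner_smul_right]
      have := Dl_green S hf G
      simp only [RCLike.re_to_complex, Complex.mul_re, Complex.I_re, Complex.I_im, this]
      ring
    rw [h1]
    ring
  have hae := ae_arctan _ (ah2 φ ψ hnorm bH)
  filter_upwards [hae] with t ht
  obtain ⟨C, hC0, hC⟩ := ht
  have hcon : ∀ x y : ℝ, 0 ≤ 16 * x ^ 2 * C * (1 + t ^ 2) + 2 * x ^ 2 * y ^ 2 := by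
    intro x y
    positivity
  refine ⟨16 * ‖e‖ ^ 2 * C * (1 + t ^ 2) + 2 * ‖e‖ ^ 2 * ‖bH‖ ^ 2, hcon _ _, fun N => ?_⟩
  obtain ⟨T, hT1, hTN, hT⟩ := hC N
  refine ⟨T, hT1, hTN, fun G hG => ?_⟩
  have h1 := hT ⟨G, hG⟩
  set g : Vs S hf := ⟨G, hG⟩ with hg
  rw [exp_arctan] at h1
  set μ : ℂ := -((t : ℂ) + Complex.I) / ((t : ℂ) - Complex.I) with hμ
  have hti : (t : ℂ) - Complex.I ≠ 0 := by
    intro h
    have := congrArg Complex.im h
    simp at this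
  have hμ1 : ‖μ‖ = 1 := by
    rw [hμ, ← exp_arctan, mul_comm]
    exact Complex.norm_exp_ofReal_mul_I _
  have hμ0 : μ ≠ 0 := by
    intro h
    rw [h, norm_zero] at hμ1
    exact zero_ne_one hμ1
  -- the derivative along the leaf
  have hD : Dl S hf ((t : ℂ) + Complex.I) g = ((t : ℂ) - Complex.I) • (φ g - μ • ψ g) := by
    have e1 : ((t : ℂ) + Complex.I).re = t := by simp
    have e2 : ((t : ℂ) + Complex.I).im = 1 := by simp
    have e3 : ((t : ℂ) - Complex.I) * μ = -((t : ℂ) + Complex.I) := by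
      rw [hμ]
      field_simp
    rw [smul_sub, smul_smul, e3, Dl_lin, hφ, hψ, e1, e2]
    have e4 : (((1 : ℝ) : ℂ)) = 1 := by norm_num
    rw [e4, one_smul]
    match_scalars
    · ring
    · ring_nf
      rw [Complex.I_sq]
      ring
  have hDn : S.en ((t : ℂ) + Complex.I) G = (1 + t ^ 2) * ‖φ g - μ • ψ g‖ ^ 2 := by
    rw [← Dl_norm S hf _ g, hD, norm_smul, mul_pow]
    congr 1
    rw [← Complex.normSq_eq_norm_sq, Complex.normSq_apply]
    simp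
    ring
  have hXn : S.en 1 G = ‖Dl S hf 1 g‖ ^ 2 := (Dl_norm S hf _ g).symm
  -- the norm of φ g
  have hφn : ‖φ g‖ ^ 2 ≤ (1 + t ^ 2) * (S.en 1 G + S.en ((t : ℂ) + Complex.I) G) := by
    have e1 : φ g = (1 / 2 : ℂ) • ((1 - Complex.I * t) • Dl S hf 1 g +
        Complex.I • Dl S hf ((t : ℂ) + Complex.I) g) := by
      rw [hφ, Dl_lin S hf ((t : ℂ) + Complex.I) g]
      have e1 : ((t : ℂ) + Complex.I).re = t := by simp
      have e2 : ((t : ℂ) + Complex.I).im = 1 := by simp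
      rw [e1, e2]
      match_scalars
      · ring
      · ring
    have e2 : ‖φ g‖ ≤ (1 / 2) * (√(1 + t ^ 2) * ‖Dl S hf 1 g‖ +
        ‖Dl S hf ((t : ℂ) + Complex.I) g‖) := by
      rw [e1, norm_smul]
      have e3 : ‖(1 / 2 : ℂ)‖ = 1 / 2 := by norm_num
      rw [e3]
      gcongr
      refine (norm_add_le _ _).trans ?_
      rw [norm_smul, norm_smul, Complex.norm_I, one_mul]
      gcongr
      rw [← Real.sqrt_sq (norm_nonneg (1 - Complex.I * (t : ℂ)))]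
      apply Real.sqrt_le_sqrt
      rw [← Complex.normSq_eq_norm_sq, Complex.normSq_apply]
      simp
      nlinarith
    rw [hXn, ← Dl_norm S hf _ g]
    exact arith2 t _ _ _ (norm_nonneg _) e2
  -- the functional
  have hval : ‖inner ℂ bH (Dl S hf e g)‖ ≤ 2 * ‖e‖ * ‖inner ℂ bH (φ g)‖ + ‖e‖ * (‖bH‖ * ‖φ g - μ • ψ g‖) := by
    have e1 : Dl S hf e g = ((starRingEnd ℂ) e + e * μ⁻¹) • φ g -
        (e * μ⁻¹) • (φ g - μ • ψ g) := by
      have e2 : (e * μ⁻¹) • (φ g - μ • ψ g) = (e * μ⁻¹) • φ g - e • ψ g := by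
        rw [smul_sub, smul_smul, mul_assoc, inv_mul_cancel₀ hμ0, mul_one]
      rw [e2, add_smul]
      have e3 : (starRingEnd ℂ) e • φ g + (e * μ⁻¹) • φ g - ((e * μ⁻¹) • φ g - e • ψ g) =
          (starRingEnd ℂ) e • φ g + e • ψ g := by abel
      rw [e3, Dl_lin, hφ, hψ]
      have e4 : (starRingEnd ℂ) e = e.re - e.im * Complex.I := by
        apply Complex.ext <;> simp
      rw [e4]
      have e5 : e = e.re + e.im * Complex.I := (Complex.re_add_im e).symm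
      set x := e.re
      set y := e.im
      rw [e5]
      match_scalars
      · ring
      · ring_nf
        rw [Complex.I_sq]
        ring
    have e6 : ‖μ⁻¹‖ = 1 := by rw [norm_inv, hμ1, inv_one]
    rw [e1, inner_sub_right, inner_smul_right, inner_smul_right]
    refine (norm_sub_le _ _).trans ?_
    rw [norm_mul, norm_mul]
    have e7 : ‖(starRingEnd ℂ) e + e * μ⁻¹‖ ≤ 2 * ‖e‖ := by
      refine (norm_add_le _ _).trans ?_
      rw [Complex.norm_conj, norm_mul, e6]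
      linarith
    have e8 : ‖e * μ⁻¹‖ = ‖e‖ := by rw [norm_mul, e6, mul_one]
    have e9 : ‖inner ℂ bH (φ g - μ • ψ g)‖ ≤ ‖bH‖ * ‖φ g - μ • ψ g‖ := norm_inner_le_norm _ _
    rw [e8]
    gcongr
  have hsum : ‖∑ i, ∫ z in S.tri i, b i z * fderiv ℝ (G i) z e‖ ≤
      2 * ‖e‖ * ‖inner ℂ bH (φ g)‖ + ‖e‖ * (‖bH‖ * ‖φ g - μ • ψ g‖) := by
    rw [← hbi g]
    exact hval
  have hE1 : 0 ≤ S.en 1 G := by
    rw [hXn]
    exact sq_nonneg _
  exact arith t C T _ _ _ _ _ _ _ _ hT1 hC0 (norm_nonneg _) (norm_nonneg _) hE1 (norm_nonneg _)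
    (norm_nonneg _) (norm_nonneg _) h1 hDn hφn hsum

end Pool.Agent.H40.G2
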