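import Mathlib

/-!
# An inequality for pairs of isometries of Hilbert spaces
-/

set_option autoImplicit false
set_option linter.unusedSectionVars false

namespace Pool.Agent.H40.G2

open MeasureTheory Set Filter Topology

section

variable {E H : Type*} [NormedAddCommGroup E] [InnerProductSpace ℂ E] [CompleteSpace E]
  [NormedAddCommGroup H] [InnerProductSpace ℂ H] [CompleteSpace H]

/-- orthogonality of exponentials on an interval of length `2π` -/
theorem exp_int (a : ℝ) (p q : ℕ) (hpq : p ≠ q) :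
    ∫ θ in a..(a + 2 * Real.pi), Complex.exp (((p : ℂ) - q) * Complex.I * θ) = 0 := by
  have hc : ((p : ℂ) - q) * Complex.I ≠ 0 := by
    refine mul_ne_zero ?_ Complex.I_ne_zero
    rw [sub_ne_zero]
    exact_mod_cast hpq
  rw [integral_exp_mul_complex hc]
  have : Complex.exp (((p : ℂ) - q) * Complex.I * ((a + 2 * Real.pi : ℝ) : ℂ)) =
      Complex.exp (((p : ℂ) - q) * Complex.I * (a : ℂ)) := by
    rw [Complex.exp_eq_exp_iff_exists_int]
    refine ⟨(p : ℤ) - q, ?_⟩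
    push_cast
    ring
  rw [this, sub_self, zero_div]

/-- The partial sums. -/
noncomputable def us (D : E →L[ℂ] E) (v : E) (r : ℝ) (M : ℕ) (θ : ℝ) : E :=
  ∑ m ∈ Finset.range M, ((r : ℂ) * Complex.exp (-(Complex.I * θ))) ^ m • (D ^ m) v

theorem us_cont (D : E →L[ℂ] E) (v : E) (r : ℝ) (M : ℕ) : Continuous (us D v r M) := by
  unfold us
  fun_prop

theorem pow_norm_le (D : E →L[ℂ] E) (hD : ‖D‖ ≤ 1) (v : E) (m : ℕ) : ‖(D ^ m) v‖ ≤ ‖v‖ := by
  induction m with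
  | zero => simp
  | succ m ih =>
    rw [pow_succ']
    calc ‖(D * D ^ m) v‖ = ‖D ((D ^ m) v)‖ := rfl
      _ ≤ ‖D‖ * ‖(D ^ m) v‖ := D.le_opNorm _
      _ ≤ 1 * ‖(D ^ m) v‖ := by gcongr
      _ = ‖(D ^ m) v‖ := one_mul _
      _ ≤ ‖v‖ := ih

/-- Parseval's identity for the partial sums. -/
theorem us_int (D : E →L[ℂ] E) (v : E) (r : ℝ) (M : ℕ) (a : ℝ) :
    ∫ θ in a..(a + 2 * Real.pi), ‖us D v r M θ‖ ^ 2 =
      2 * Real.pi * ∑ m ∈ Finset.range M, r ^ (2 * m) * ‖(D ^ m) v‖ ^ 2 := by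
  have h1 : ∀ θ : ℝ, ((‖us D v r M θ‖ ^ 2 : ℝ) : ℂ) =
      ∑ p ∈ Finset.range M, ∑ q ∈ Finset.range M,
        ((r : ℂ) ^ (p + q) * inner ℂ ((D ^ p) v) ((D ^ q) v)) *
          Complex.exp (((p : ℂ) - q) * Complex.I * θ) := by
    intro θ
    have h2 : ((‖us D v r M θ‖ ^ 2 : ℝ) : ℂ) = inner ℂ (us D v r M θ) (us D v r M θ) := by
      rw [inner_self_eq_norm_sq_to_K]
      push_cast
      rfl
    rw [h2]
    unfold us
    rw [sum_inner]
    refine Finset.sum_congr rfl fun p _ => ?_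
    rw [inner_sum]
    refine Finset.sum_congr rfl fun q _ => ?_
    rw [inner_smul_left, inner_smul_right]
    have h3 : (starRingEnd ℂ) (((r : ℂ) * Complex.exp (-(Complex.I * θ))) ^ p) =
        (r : ℂ) ^ p * Complex.exp ((p : ℂ) * (Complex.I * θ)) := by
      rw [map_pow, map_mul, ← Complex.exp_conj, mul_pow, ← Complex.exp_nat_mul]
      congr 2
      · simp
      · simp
    have h4 : ((r : ℂ) * Complex.exp (-(Complex.I * θ))) ^ q =
        (r : ℂ) ^ q * Complex.exp ((q : ℂ) * (-(Complex.I * θ))) := by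
      rw [mul_pow, ← Complex.exp_nat_mul]
    rw [h3, h4]
    have h5 : Complex.exp (((p : ℂ) - q) * Complex.I * θ) =
        Complex.exp ((p : ℂ) * (Complex.I * θ)) * Complex.exp ((q : ℂ) * (-(Complex.I * θ))) := by
      rw [← Complex.exp_add]
      congr 1
      ring
    rw [h5, pow_add]
    ring
  have h6 : ((∫ θ in a..(a + 2 * Real.pi), ‖us D v r M θ‖ ^ 2 : ℝ) : ℂ) =
      ((2 * Real.pi * ∑ m ∈ Finset.range M, r ^ (2 * m) * ‖(D ^ m) v‖ ^ 2 : ℝ) : ℂ) := by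
    rw [← intervalIntegral.integral_ofReal]
    simp_rw [h1]
    rw [intervalIntegral.integral_finsetSum]
    · push_cast
      rw [Finset.mul_sum]
      refine Finset.sum_congr rfl fun p hp => ?_
      rw [intervalIntegral.integral_finsetSum]
      · rw [Finset.sum_eq_single p]
        · rw [sub_self, zero_mul]
          simp only [zero_mul, Complex.exp_zero, mul_one, intervalIntegral.integral_const,
            add_sub_cancel_left]
          rw [inner_self_eq_norm_sq_to_K, Complex.real_smul]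
          push_cast
          rw [two_mul p]
          ring_nf
          rfl
        · intro q _ hq
          rw [intervalIntegral.integral_const_mul, exp_int a p q (Ne.symm hq), mul_zero]
        · intro h
          exact absurd hp h
      · intro q _
        apply Continuous.intervalIntegrable
        fun_prop
    · intro p _
      apply Continuous.intervalIntegrable
      fun_prop
  exact_mod_cast h6

/-- The bound for the mean square of the partial sums. -/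
theorem us_int_le (D : E →L[ℂ] E) (hD : ‖D‖ ≤ 1) (v : E) (r : ℝ) (hr0 : 0 ≤ r) (hr1 : r < 1)
    (M : ℕ) (a : ℝ) :
    (1 - r) * ∫ θ in a..(a + 2 * Real.pi), ‖us D v r M θ‖ ^ 2 ≤ 2 * Real.pi * ‖v‖ ^ 2 := by
  rw [us_int]
  have h1 : ∑ m ∈ Finset.range M, r ^ (2 * m) * ‖(D ^ m) v‖ ^ 2 ≤
      (∑ m ∈ Finset.range M, r ^ m) * ‖v‖ ^ 2 := by
    rw [Finset.sum_mul]
    refine Finset.sum_le_sum fun m _ => ?_
    have h2 : r ^ (2 * m) ≤ r ^ m := pow_le_pow_of_le_one hr0 hr1.le (by omega)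
    have h3 := pow_norm_le D hD v m
    gcongr
  have h4 : (1 - r) * ∑ m ∈ Finset.range M, r ^ m ≤ 1 := by
    have := mul_neg_geom_sum r M
    rw [this]
    have : 0 ≤ r ^ M := by positivity
    linarith
  have hpi := Real.pi_pos
  calc (1 - r) * (2 * Real.pi * ∑ m ∈ Finset.range M, r ^ (2 * m) * ‖(D ^ m) v‖ ^ 2)
      = 2 * Real.pi * ((1 - r) * ∑ m ∈ Finset.range M, r ^ (2 * m) * ‖(D ^ m) v‖ ^ 2) := by ring
    _ ≤ 2 * Real.pi * ((1 - r) * ((∑ m ∈ Finset.range M, r ^ m) * ‖v‖ ^ 2)) := by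
        have : 0 ≤ 1 - r := by linarith
        gcongr
    _ = 2 * Real.pi * (((1 - r) * ∑ m ∈ Finset.range M, r ^ m) * ‖v‖ ^ 2) := by ring
    _ ≤ 2 * Real.pi * (1 * ‖v‖ ^ 2) := by gcongr
    _ = 2 * Real.pi * ‖v‖ ^ 2 := by ring

/-- The truncated resolvent identity. -/
theorem us_res (D : E →L[ℂ] E) (v : E) (r : ℝ) (M : ℕ) (θ : ℝ) :
    us D v r M θ - ((r : ℂ) * Complex.exp (-(Complex.I * θ))) • D (us D v r M θ) =
      v - ((r : ℂ) * Complex.exp (-(Complex.I * θ))) ^ M • (D ^ M) v := by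
  set z := (r : ℂ) * Complex.exp (-(Complex.I * θ)) with hz
  induction M with
  | zero => simp [us]
  | succ M ih =>
    have h1 : us D v r (M + 1) θ = us D v r M θ + z ^ M • (D ^ M) v := by
      unfold us
      rw [Finset.sum_range_succ]
    rw [h1, map_add, smul_add, map_smul]
    have h2 : D ((D ^ M) v) = (D ^ (M + 1)) v := by
      rw [pow_succ']
      rfl
    rw [h2, smul_smul, ← pow_succ']
    have h3 : us D v r M θ + z ^ M • (D ^ M) v -
        (z • D (us D v r M θ) + z ^ (M + 1) • (D ^ (M + 1)) v) =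
        (us D v r M θ - z • D (us D v r M θ)) + z ^ M • (D ^ M) v -
          z ^ (M + 1) • (D ^ (M + 1)) v := by abel
    rw [h3, ih]
    abel

/-- The basic inequality. -/
theorem basic (A B : E →L[ℂ] H) (hA : ∀ k, ‖A k‖ = ‖k‖) (hB : ∀ k, ‖B k‖ = ‖k‖) (b : H)
    (r : ℝ) (hr0 : 0 ≤ r) (hr1 : r ≤ 1) (M : ℕ) (θ : ℝ) (k : E) :
    ‖inner ℂ b (A k)‖ ≤
      ‖us (ContinuousLinearMap.adjoint B ∘L A) (ContinuousLinearMap.adjoint A b) r M θ‖ *
        (‖A k - Complex.exp (Complex.I * θ) • B k‖ + (1 - r) * ‖k‖) +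
      r ^ M * ‖ContinuousLinearMap.adjoint A b‖ * ‖k‖ := by
  set D := ContinuousLinearMap.adjoint B ∘L A with hDdef
  set v := ContinuousLinearMap.adjoint A b with hv
  set u := us D v r M θ with hu
  set z := (r : ℂ) * Complex.exp (-(Complex.I * θ)) with hz
  have hAn : ‖A‖ ≤ 1 := A.opNorm_le_bound zero_le_one fun x => by rw [hA, one_mul]
  have hBn : ‖B‖ ≤ 1 := B.opNorm_le_bound zero_le_one fun x => by rw [hB, one_mul]
  have hD : ‖D‖ ≤ 1 := by
    refine (ContinuousLinearMap.opNorm_comp_le _ _).trans ?_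
    rw [LinearIsometryEquiv.norm_map]
    calc ‖B‖ * ‖A‖ ≤ 1 * 1 := by gcongr
      _ = 1 := one_mul _
  have hconj : (starRingEnd ℂ) z = (r : ℂ) * Complex.exp (Complex.I * θ) := by
    rw [hz, map_mul, ← Complex.exp_conj]
    simp
  have hres := us_res D v r M θ
  rw [← hu, ← hz] at hres
  -- inner b (A k) = inner v k
  have h1 : inner ℂ b (A k) = inner ℂ v k := by
    rw [hv, ContinuousLinearMap.adjoint_inner_left]
  have hAA : ∀ x y : E, inner ℂ (A x) (A y) = inner ℂ x y := by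
    intro x y
    have := (LinearIsometry.inner_map_map (𝕜 := ℂ)
      (⟨A.toLinearMap, hA⟩ : E →ₗᵢ[ℂ] H) x y)
    exact this
  have h2 : inner ℂ (u - z • D u) k = inner ℂ (A u) (A k - ((starRingEnd ℂ) z) • B k) := by
    rw [inner_sub_left, inner_smul_left, inner_sub_right, inner_smul_right, hAA, hDdef]
    simp only [ContinuousLinearMap.comp_apply]
    rw [ContinuousLinearMap.adjoint_inner_left]
  have h3 : inner ℂ v k = inner ℂ (A u) (A k - ((starRingEnd ℂ) z) • B k) +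
      inner ℂ (z ^ M • (D ^ M) v) k := by
    rw [← h2, hres, ← inner_add_left]
    congr 1
    abel
  rw [h1, h3]
  refine (norm_add_le _ _).trans (add_le_add ?_ ?_)
  · refine (norm_inner_le_norm _ _).trans ?_
    rw [hA]
    have h4 : ‖A k - ((starRingEnd ℂ) z) • B k‖ ≤
        ‖A k - Complex.exp (Complex.I * θ) • B k‖ + (1 - r) * ‖k‖ := by
      have h5 : A k - ((starRingEnd ℂ) z) • B k =
          (A k - Complex.exp (Complex.I * θ) • B k) +
            (((1 - r : ℝ) : ℂ) * Complex.exp (Complex.I * θ)) • B k := by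
        rw [hconj]
        push_cast
        rw [sub_mul, sub_smul, one_mul]
        abel
      rw [h5]
      refine (norm_add_le _ _).trans ?_
      gcongr
      rw [norm_smul, norm_mul, hB]
      have h6 : ‖Complex.exp (Complex.I * θ)‖ = 1 := by
        rw [mul_comm]
        exact Complex.norm_exp_ofReal_mul_I θ
      rw [h6, mul_one, Complex.norm_real, Real.norm_of_nonneg (by linarith)]
    gcongr
  · refine (norm_inner_le_norm _ _).trans ?_
    rw [norm_smul, norm_pow, hz, norm_mul, Complex.norm_real, Real.norm_of_nonneg hr0]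
    have h6 : ‖Complex.exp (-(Complex.I * θ))‖ = 1 := by
      have : -(Complex.I * (θ : ℂ)) = ((-θ : ℝ) : ℂ) * Complex.I := by
        push_cast
        ring
      rw [this]
      exact Complex.norm_exp_ofReal_mul_I (-θ)
    rw [h6, mul_one]
    have h7 := pow_norm_le D hD v M
    gcongr

/-- Fatou's lemma on an interval of length `2π`. -/
theorem fat (D : E →L[ℂ] E) (hD : ‖D‖ ≤ 1) (v : E) (r : ℕ → ℝ) (hr0 : ∀ j, 0 ≤ r j)
    (hr1 : ∀ j, r j < 1) (M : ℕ → ℕ) (a : ℝ) :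
    ∀ᵐ θ : ℝ, θ ∈ Ioc a (a + 2 * Real.pi) →
      ∃ c : ℝ, ∃ᶠ j in atTop, (1 - r j) * ‖us D v (r j) (M j) θ‖ ^ 2 ≤ c := by
  have hpi := Real.pi_pos
  set f : ℕ → ℝ → ENNReal := fun j θ =>
    ENNReal.ofReal ((1 - r j) * ‖us D v (r j) (M j) θ‖ ^ 2) with hf
  have hfm : ∀ j, Measurable (f j) := by
    intro j
    have hc : Continuous fun θ => (1 - r j) * ‖us D v (r j) (M j) θ‖ ^ 2 := by
      have := us_cont D v (r j) (M j)
      fun_prop
    exact hc.measurable.ennreal_ofReal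
  have hfi : ∀ j, ∫⁻ θ in Ioc a (a + 2 * Real.pi), f j θ ≤
      ENNReal.ofReal (2 * Real.pi * ‖v‖ ^ 2) := by
    intro j
    have h1 : 0 ≤ 1 - r j := by
      have := hr1 j
      linarith
    rw [hf]
    simp only
    rw [← ofReal_integral_eq_lintegral_ofReal]
    · apply ENNReal.ofReal_le_ofReal
      rw [integral_const_mul, ← intervalIntegral.integral_of_le (by linarith)]
      exact us_int_le D hD v (r j) (hr0 j) (hr1 j) (M j) a
    · have hc : Continuous fun θ => (1 - r j) * ‖us D v (r j) (M j) θ‖ ^ 2 := by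
        have := us_cont D v (r j) (M j)
        fun_prop
      exact (hc.continuousOn.integrableOn_compact isCompact_Icc).mono_set Ioc_subset_Icc_self
    · exact ae_of_all _ fun θ => by positivity
  have hlim : ∫⁻ θ in Ioc a (a + 2 * Real.pi), liminf (fun j => f j θ) atTop ≤
      ENNReal.ofReal (2 * Real.pi * ‖v‖ ^ 2) := by
    refine (lintegral_liminf_le hfm).trans ?_
    refine liminf_le_of_frequently_le' ?_
    exact Frequently.of_forall hfi
  have hae : ∀ᵐ θ ∂(volume.restrict (Ioc a (a + 2 * Real.pi))),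
      liminf (fun j => f j θ) atTop < ⊤ := by
    refine ae_lt_top (Measurable.liminf hfm) ?_
    exact ne_top_of_le_ne_top ENNReal.ofReal_ne_top hlim
  rw [ae_restrict_iff' measurableSet_Ioc] at hae
  filter_upwards [hae] with θ h1 h2
  have h3 := h1 h2
  refine ⟨(liminf (fun j => f j θ) atTop).toReal + 1, ?_⟩
  have h4 : liminf (fun j => f j θ) atTop <
      ENNReal.ofReal ((liminf (fun j => f j θ) atTop).toReal + 1) := by
    rw [ENNReal.lt_ofReal_iff_toReal_lt h3.ne]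
    linarith
  have h5 := frequently_lt_of_liminf_lt (by isBoundedDefault) h4
  refine h5.mono fun j hj => ?_
  rw [hf] at hj
  simp only at hj
  exact ((ENNReal.ofReal_lt_ofReal_iff (by positivity)).1 hj).le

/-- the parameters -/
theorem params : ∃ (r : ℕ → ℝ) (M : ℕ → ℕ), (∀ j, 0 ≤ r j) ∧ (∀ j, r j < 1) ∧
    (∀ j, 1 - r j = (((j : ℝ) + 1) ^ 2)⁻¹) ∧ ∀ j, r j ^ M j ≤ ((j : ℝ) + 1)⁻¹ := by
  have hr0 : ∀ j : ℕ, 0 ≤ 1 - (((j : ℝ) + 1) ^ 2)⁻¹ := by
    intro j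
    have h1 : (1 : ℝ) ≤ ((j : ℝ) + 1) ^ 2 := by
      have : (0 : ℝ) ≤ j := j.cast_nonneg
      nlinarith
    have := inv_le_one_of_one_le₀ h1
    linarith
  have hr1 : ∀ j : ℕ, 1 - (((j : ℝ) + 1) ^ 2)⁻¹ < 1 := by
    intro j
    have : 0 < (((j : ℝ) + 1) ^ 2)⁻¹ := by positivity
    linarith
  have hM : ∀ j : ℕ, ∃ M : ℕ, (1 - (((j : ℝ) + 1) ^ 2)⁻¹) ^ M < ((j : ℝ) + 1)⁻¹ := by
    intro j
    exact exists_pow_lt_of_lt_one (by positivity) (hr1 j)
  choose M hM using hM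
  exact ⟨fun j => 1 - (((j : ℝ) + 1) ^ 2)⁻¹, M, hr0, hr1, fun j => by ring, fun j => (hM j).le⟩

/-- For almost every direction the functional `k ↦ ⟪b, A k⟫` is bounded by the energy. -/
theorem ah (A B : E →L[ℂ] H) (hA : ∀ k, ‖A k‖ = ‖k‖) (hB : ∀ k, ‖B k‖ = ‖k‖) (b : H) :
    ∀ᵐ θ : ℝ, ∃ C : ℝ, 0 ≤ C ∧ ∀ N : ℕ, ∃ T : ℝ, 1 ≤ T ∧ (N : ℝ) ≤ T ∧ ∀ k : E,
      ‖inner ℂ b (A k)‖ ^ 2 ≤
        C * (T ^ 2 * ‖A k - Complex.exp (Complex.I * θ) • B k‖ ^ 2 + (T ^ 2)⁻¹ * ‖k‖ ^ 2) := by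
  have hpi := Real.pi_pos
  obtain ⟨r, M, hr0, hr1, hr2, hr3⟩ := params
  set D := ContinuousLinearMap.adjoint B ∘L A with hDdef
  set v := ContinuousLinearMap.adjoint A b with hv
  have hAn : ‖A‖ ≤ 1 := A.opNorm_le_bound zero_le_one fun x => by rw [hA, one_mul]
  have hBn : ‖B‖ ≤ 1 := B.opNorm_le_bound zero_le_one fun x => by rw [hB, one_mul]
  have hD : ‖D‖ ≤ 1 := by
    refine (ContinuousLinearMap.opNorm_comp_le _ _).trans ?_
    rw [LinearIsometryEquiv.norm_map]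
    calc ‖B‖ * ‖A‖ ≤ 1 * 1 := by gcongr
      _ = 1 := one_mul _
  have hall : ∀ m : ℤ, ∀ᵐ θ : ℝ,
      θ ∈ Ioc (2 * Real.pi * m) (2 * Real.pi * m + 2 * Real.pi) →
      ∃ c : ℝ, ∃ᶠ j in atTop, (1 - r j) * ‖us D v (r j) (M j) θ‖ ^ 2 ≤ c :=
    fun m => fat D hD v r hr0 hr1 M _
  rw [← ae_all_iff] at hall
  filter_upwards [hall] with θ hθ
  obtain ⟨m, hm⟩ : ∃ m : ℤ, θ ∈ Ioc (2 * Real.pi * m) (2 * Real.pi * m + 2 * Real.pi) := by
    refine ⟨⌈θ / (2 * Real.pi)⌉ - 1, ?_, ?_⟩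
    · have h1 := Int.ceil_lt_add_one (θ / (2 * Real.pi))
      have h2 : (⌈θ / (2 * Real.pi)⌉ : ℝ) - 1 < θ / (2 * Real.pi) := by linarith
      rw [lt_div_iff₀ (by positivity)] at h2
      push_cast
      linarith
    · have h1 := Int.le_ceil (θ / (2 * Real.pi))
      rw [div_le_iff₀ (by positivity)] at h1
      push_cast
      linarith
  obtain ⟨c, hc⟩ := hθ m hm
  have hc0 : 0 ≤ c := by
    obtain ⟨j, hj⟩ := hc.exists
    refine le_trans ?_ hj
    have := hr1 j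
    have : 0 ≤ 1 - r j := by linarith
    positivity
  refine ⟨2 * (√c + ‖v‖) ^ 2, by positivity, fun N => ?_⟩
  obtain ⟨j, hjN, hj⟩ := (frequently_atTop.1 hc) N
  set T : ℝ := (j : ℝ) + 1 with hT
  have hj0 : (0 : ℝ) ≤ j := j.cast_nonneg
  have hT1 : 1 ≤ T := by linarith
  have hT0 : 0 < T := by linarith
  refine ⟨T, hT1, ?_, fun k => ?_⟩
  · have : (N : ℝ) ≤ j := by exact_mod_cast hjN
    linarith
  have hb := basic A B hA hB b (r j) (hr0 j) (hr1 j).le (M j) θ k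
  rw [← hDdef, ← hv] at hb
  set u := ‖us D v (r j) (M j) θ‖ with hu
  set X := ‖A k - Complex.exp (Complex.I * θ) • B k‖ with hX
  have hu0 : 0 ≤ u := norm_nonneg _
  have hX0 : 0 ≤ X := norm_nonneg _
  have hk0 : 0 ≤ ‖k‖ := norm_nonneg _
  have hv0 : 0 ≤ ‖v‖ := norm_nonneg _
  have hue : u ≤ √c * T := by
    rw [hr2 j, ← hT] at hj
    have h1 : u ^ 2 ≤ c * T ^ 2 := by
      have h2 : (T ^ 2)⁻¹ * u ^ 2 * T ^ 2 ≤ c * T ^ 2 := by gcongr
      have h3 : (T ^ 2)⁻¹ * u ^ 2 * T ^ 2 = u ^ 2 := by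
        field_simp
      rwa [h3] at h2
    calc u = √(u ^ 2) := (Real.sqrt_sq hu0).symm
      _ ≤ √(c * T ^ 2) := Real.sqrt_le_sqrt h1
      _ = √c * T := by rw [Real.sqrt_mul hc0, Real.sqrt_sq hT0.le]
  have hr4 : 1 - r j = (T ^ 2)⁻¹ := hr2 j
  have hr5 : r j ^ M j ≤ T⁻¹ := hr3 j
  have h1 : ‖inner ℂ b (A k)‖ ≤ (√c + ‖v‖) * (T * X + T⁻¹ * ‖k‖) := by
    refine hb.trans ?_
    rw [hr4]
    have hc1 : 0 ≤ √c := Real.sqrt_nonneg _
    calc u * (X + (T ^ 2)⁻¹ * ‖k‖) + r j ^ M j * ‖v‖ * ‖k‖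
        ≤ (√c * T) * (X + (T ^ 2)⁻¹ * ‖k‖) + T⁻¹ * ‖v‖ * ‖k‖ := by gcongr
      _ = √c * (T * X + T⁻¹ * ‖k‖) + ‖v‖ * (T⁻¹ * ‖k‖) := by
          field_simp
      _ ≤ √c * (T * X + T⁻¹ * ‖k‖) + ‖v‖ * (T * X + T⁻¹ * ‖k‖) := by
          have : 0 ≤ T * X := by positivity
          gcongr
          linarith
      _ = (√c + ‖v‖) * (T * X + T⁻¹ * ‖k‖) := by ring
  have hc1 : 0 ≤ √c := Real.sqrt_nonneg _
  calc ‖inner ℂ b (A k)‖ ^ 2 ≤ ((√c + ‖v‖) * (T * X + T⁻¹ * ‖k‖)) ^ 2 := by gcongr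
    _ = (√c + ‖v‖) ^ 2 * (T * X + T⁻¹ * ‖k‖) ^ 2 := by ring
    _ ≤ (√c + ‖v‖) ^ 2 * (2 * ((T * X) ^ 2 + (T⁻¹ * ‖k‖) ^ 2)) := by
        gcongr
        nlinarith [sq_nonneg (T * X - T⁻¹ * ‖k‖)]
    _ = 2 * (√c + ‖v‖) ^ 2 * (T ^ 2 * X ^ 2 + (T ^ 2)⁻¹ * ‖k‖ ^ 2) := by
        rw [mul_pow, mul_pow, inv_pow]
        ring

end

end Pool.Agent.H40.G2
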